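import Pool.Agent.W525.CB.Stm

/-!
# Transcendence degrees (project CB, problem MP_99f32e_ag)
-/

open Pool.Agent.W525.CB

namespace Pool.Agent.W212.CBT

section gen

variable {K E : Type} [Field K] [Field E] [Algebra K E]

/-- the elements of `E` that are algebraic over `K(S)` -/
noncomputable def cl (K : Type) {E : Type} [Field K] [Field E] [Algebra K E] (S : Set E) :
    IntermediateField K E :=
  (algebraicClosure (IntermediateField.adjoin K S) E).restrictScalars K

theorem mem_cl {S : Set E} {e : E} :
    e ∈ cl K S ↔ IsAlgebraic (IntermediateField.adjoin K S) e := by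
  unfold cl
  rw [IntermediateField.mem_restrictScalars]
  exact mem_algebraicClosure_iff

theorem subset_cl {S : Set E} {e : E} (he : e ∈ S) : e ∈ cl K S := by
  rw [mem_cl]
  exact isAlgebraic_algebraMap
    (⟨e, IntermediateField.subset_adjoin K S he⟩ : IntermediateField.adjoin K S)

theorem alg_map_mem_cl {S : Set E} (c : K) : algebraMap K E c ∈ cl K S :=
  (cl K S).algebraMap_mem c

/-- the roots of polynomials with coefficients in `cl K S` are in `cl K S` -/
theorem mem_cl_of_poly {S : Set E} {e : E} (P : Polynomial (cl K S)) (hP : P ≠ 0)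
    (h : Polynomial.aeval e P = 0) : e ∈ cl K S := by
  rw [mem_cl]
  have h1 : IsAlgebraic (algebraicClosure (IntermediateField.adjoin K S) E) e := ⟨P, hP, h⟩
  exact h1.restrictScalars (IntermediateField.adjoin K S)

theorem mem_cl_of_isAlgebraic {S : Set E} {e : E} (F : IntermediateField K E) (hF : F ≤ cl K S)
    (h : IsAlgebraic F e) : e ∈ cl K S := by
  obtain ⟨P, hP, he⟩ := h
  refine mem_cl_of_poly (P.map (IntermediateField.inclusion hF).toRingHom) ?_ ?_
  · rw [Ne, Polynomial.map_eq_zero_iff (IntermediateField.inclusion hF).toRingHom.injective]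
    exact hP
  · rw [Polynomial.aeval_def, Polynomial.eval₂_map]
    rw [Polynomial.aeval_def] at he
    exact he

theorem mem_cl_of_pow {S : Set E} {e : E} (m : ℕ) (hm : 0 < m) (h : e ^ m ∈ cl K S) :
    e ∈ cl K S := by
  rw [mem_cl] at h ⊢
  rw [isAlgebraic_iff_isIntegral] at h ⊢
  exact h.of_pow hm

theorem trdeg_le {k : Type} [Field k] [Algebra k E] [Algebra k K] [IsScalarTower k K E]
    (S G : Set E) (hG : IntermediateField.adjoin k G = ⊤) (h : ∀ g ∈ G, g ∈ cl K S) :
    Algebra.trdeg K E ≤ Cardinal.mk S := by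
  have h1 : (cl K S).restrictScalars k = ⊤ := by
    rw [eq_top_iff, ← hG, IntermediateField.adjoin_le_iff]
    intro g hg
    exact h g hg
  have h2 : ∀ e : E, IsAlgebraic (IntermediateField.adjoin K S) e := by
    intro e
    rw [← mem_cl, ← IntermediateField.mem_restrictScalars (K := k), h1]
    trivial
  have h3 : Algebra.IsAlgebraic (IntermediateField.adjoin K S) E := ⟨h2⟩
  have h4 : Algebra.IsAlgebraic (Algebra.adjoin K S) E :=
    IntermediateField.isAlgebraic_adjoin_iff_top.mp h3
  exact Algebra.IsAlgebraic.trdeg_le_cardinalMk K S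

end gen

theorem main : S_FF → S_TR := by
  intro _ n k E _ _ _ _ _ _ x y hn hD
  have hx := hD.dat.nx
  have hT0 : ((2 * n + 2 : ℕ) : Cardinal) ≤ Algebra.trdeg k E := by
    have := hD.ind.cardinalMk_le_trdeg
    simp only [Cardinal.mk_sum, Cardinal.mk_fin, Cardinal.lift_natCast] at this
    refine le_trans (le_of_eq ?_) this
    push_cast
    ring
  have hxs : ∀ i, x i = (x i / x 0) * x 0 := fun i => (div_mul_cancel₀ _ (hx 0)).symm
  -- the tangent relation
  have htang : x 1 + ∑ i : Fin (n + 1), x i.succ.succ * y i.succ.succ ^ (n + 2) = 0 := by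
    have := hD.dat.tang
    rw [Fin.sum_univ_succ, Fin.sum_univ_succ, hD.y0] at this
    simp only [Fin.succ_zero_eq_one, hD.y1] at this
    simpa using this
  have htang' : x 1 / x 0 + ∑ i : Fin (n + 1), x i.succ.succ / x 0 * y i.succ.succ ^ (n + 2) = 0 := by
    have h1 : x 1 / x 0 + ∑ i : Fin (n + 1), x i.succ.succ / x 0 * y i.succ.succ ^ (n + 2) =
        (x 1 + ∑ i : Fin (n + 1), x i.succ.succ * y i.succ.succ ^ (n + 2)) / x 0 := by
      rw [add_div, Finset.sum_div]
      congr 1
      refine Finset.sum_congr rfl fun i _ => ?_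
      ring
    rw [h1, htang, zero_div]
  have hfer : 1 + (x 1 / x 0) ^ (2 * n + 5) + (x 2 / x 0) ^ (2 * n + 5) +
      ∑ i : Fin n, (x i.succ.succ.succ / x 0) ^ (2 * n + 5) = 0 := by
    have := hD.dat.fermat
    rw [Fin.sum_univ_succ, Fin.sum_univ_succ, Fin.sum_univ_succ] at this
    have h2 : (1 + (x 1 / x 0) ^ (2 * n + 5) + (x 2 / x 0) ^ (2 * n + 5) +
      ∑ i : Fin n, (x i.succ.succ.succ / x 0) ^ (2 * n + 5)) * x 0 ^ (2 * n + 5) = 0 := by
      rw [← this, add_mul, add_mul, add_mul, Finset.sum_mul, one_mul, ← mul_pow, ← mul_pow,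
        ← hxs, ← hxs]
      simp only [← mul_pow, ← hxs]
      simp only [Fin.succ_zero_eq_one, Fin.succ_one_eq_two]
      ring
    exact (mul_eq_zero.mp h2).resolve_right (pow_ne_zero _ (hx 0))
  have hgen := hD.gen
  refine ⟨?_, ?_, ?_⟩
  · -- (A)
    have h1 : Algebra.trdeg (FX k x y) E ≤ ((1 : ℕ) : Cardinal) := by
      refine (trdeg_le (k := k) {x 0} _ hgen ?_).trans (by simp)
      rintro g (⟨i, rfl⟩ | ⟨i, rfl⟩)
      · rw [hxs i]
        refine mul_mem ?_ (subset_cl rfl)
        exact alg_map_mem_cl (⟨x i / x 0, IntermediateField.subset_adjoin k _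
          (Or.inl ⟨i, rfl⟩)⟩ : FX k x y)
      · exact alg_map_mem_cl (⟨y i, IntermediateField.subset_adjoin k _
          (Or.inr ⟨i, rfl⟩)⟩ : FX k x y)
    have h2 := trdeg_add_eq k (FX k x y) (A := E)
    rw [← h2] at hT0
    have h3 := hT0.trans (add_le_add_right h1 _)
    have h4 : ((2 * n + 2 : ℕ) : Cardinal) = ((2 * n + 1 : ℕ) : Cardinal) + ((1 : ℕ) : Cardinal) := by
      push_cast; ring
    rw [h4] at h3
    exact (Cardinal.add_le_add_iff_of_lt_aleph0 (Cardinal.natCast_lt_aleph0)).mp h3
  · -- (B)
    have hs : ∀ i, ∀ S : Set E, x i / x 0 ∈ cl (FZ k x) S := fun i S =>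
      alg_map_mem_cl (⟨x i / x 0, IntermediateField.subset_adjoin k _ ⟨i, rfl⟩⟩ : FZ k x)
    have h1 : Algebra.trdeg (FZ k x) E ≤ ((n + 1 : ℕ) : Cardinal) := by
      refine (trdeg_le (k := k) (Set.range (fun o : Option (Fin n) =>
        o.elim (x 0) (fun i => y i.castSucc.succ.succ))) _ hgen ?_).trans
          (Cardinal.mk_range_le.trans (by simp))
      have hx0 : x 0 ∈ cl (FZ k x) (Set.range (fun o : Option (Fin n) =>
        o.elim (x 0) (fun i => y i.castSucc.succ.succ))) := subset_cl ⟨none, rfl⟩
      have hyi : ∀ i : Fin n, y i.castSucc.succ.succ ∈ cl (FZ k x)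
        (Set.range (fun o : Option (Fin n) => o.elim (x 0) (fun i => y i.castSucc.succ.succ))) :=
        fun i => subset_cl ⟨some i, rfl⟩
      generalize (Set.range (fun o : Option (Fin n) =>
        o.elim (x 0) (fun i => y i.castSucc.succ.succ))) = S at hx0 hyi
      rintro g (⟨i, rfl⟩ | ⟨i, rfl⟩)
      · rw [hxs i]
        exact mul_mem (hs i S) hx0
      · refine Fin.cases ?_ (fun i => Fin.cases ?_ (fun i => Fin.lastCases ?_ (fun i => ?_) i) i) i
        · rw [hD.y0]; exact zero_mem _
        · rw [Fin.succ_zero_eq_one, hD.y1]; exact one_mem _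
        · refine mem_cl_of_pow (n + 2) (by omega) ?_
          rw [Fin.sum_univ_castSucc] at htang'
          have h3 : y (Fin.last n).succ.succ ^ (n + 2) =
              -(x 1 / x 0 + ∑ i : Fin n, x i.castSucc.succ.succ / x 0 *
                y i.castSucc.succ.succ ^ (n + 2)) / (x (Fin.last n).succ.succ / x 0) := by
            rw [eq_div_iff (div_ne_zero (hx _) (hx _))]
            linear_combination htang'
          rw [h3]
          refine div_mem (neg_mem (add_mem (hs _ _) (sum_mem fun i _ => ?_))) (hs _ _)
          exact mul_mem (hs _ _) (pow_mem (hyi i) _)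
        · exact hyi i
    have h2 := trdeg_add_eq k (FZ k x) (A := E)
    rw [← h2] at hT0
    have h3 := hT0.trans (add_le_add_right h1 _)
    have h4 : ((2 * n + 2 : ℕ) : Cardinal) = ((n + 1 : ℕ) : Cardinal) + ((n + 1 : ℕ) : Cardinal) := by
      push_cast; ring
    rw [h4] at h3
    exact (Cardinal.add_le_add_iff_of_lt_aleph0 (Cardinal.natCast_lt_aleph0)).mp h3
  · -- (C)
    intro i hi
    have h1 : Algebra.trdeg k E ≤ ((2 * n + 1 : ℕ) : Cardinal) := by
      refine (trdeg_le (k := k) (K := k) (Set.range (Sum.elim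
        (fun i : Fin n => x i.succ.succ.succ / x 0) (fun i : Fin (n + 1) => y i.succ.succ))) _
          hgen ?_).trans (Cardinal.mk_range_le.trans ?_)
      swap
      · simp only [Cardinal.mk_sum, Cardinal.mk_fin, Cardinal.lift_natCast]
        push_cast
        exact le_of_eq (by ring)
      have hsi : ∀ i : Fin n, x i.succ.succ.succ / x 0 ∈ cl k (Set.range (Sum.elim
        (fun i : Fin n => x i.succ.succ.succ / x 0) (fun i : Fin (n + 1) => y i.succ.succ))) :=
        fun i => subset_cl ⟨Sum.inl i, rfl⟩
      have hyi : ∀ i : Fin (n + 1), y i.succ.succ ∈ cl k (Set.range (Sum.elim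
        (fun i : Fin n => x i.succ.succ.succ / x 0) (fun i : Fin (n + 1) => y i.succ.succ))) :=
        fun i => subset_cl ⟨Sum.inr i, rfl⟩
      generalize (Set.range (Sum.elim
        (fun i : Fin n => x i.succ.succ.succ / x 0) (fun i : Fin (n + 1) => y i.succ.succ))) = S
        at hsi hyi
      have hy : ∀ i, y i ∈ cl k S := by
        intro i
        refine Fin.cases ?_ (fun i => Fin.cases ?_ (fun i => ?_) i) i
        · rw [hD.y0]; exact zero_mem _
        · rw [Fin.succ_zero_eq_one, hD.y1]; exact one_mem _
        · exact hyi i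
      -- the equation for `s_2`
      rw [Fin.sum_univ_succ] at htang'
      simp only [Fin.succ_zero_eq_one, Fin.succ_one_eq_two] at htang'
      set r : E := ∑ i : Fin n, x i.succ.succ.succ / x 0 * y i.succ.succ.succ ^ (n + 2) with hr
      set c : E := ∑ i : Fin n, (x i.succ.succ.succ / x 0) ^ (2 * n + 5) with hc
      have hrm : r ∈ cl k S := sum_mem fun i _ => mul_mem (hsi i) (pow_mem (hy _) _)
      have hcm : c ∈ cl k S := sum_mem fun i _ => pow_mem (hsi i) _
      have hs1 : x 1 / x 0 = -(y 2 ^ (n + 2) * (x 2 / x 0) + r) := by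
        linear_combination htang'
      have hs2 : x 2 / x 0 ∈ cl k S := by
        let a : cl k S := ⟨y 2 ^ (n + 2), pow_mem (hy 2) _⟩
        let b : cl k S := ⟨r, hrm⟩
        let d : cl k S := ⟨c, hcm⟩
        let P : Polynomial (cl k S) := Polynomial.X ^ (2 * n + 5) -
          (Polynomial.C a * Polynomial.X + Polynomial.C b) ^ (2 * n + 5) + Polynomial.C (1 + d)
        have hP : P.coeff (2 * n + 5) = 1 - a ^ (2 * n + 5) := by
          have h5 : ((Polynomial.C a * Polynomial.X + Polynomial.C b) ^ (2 * n + 5)).coeff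
              (2 * n + 5) = a ^ (2 * n + 5) := by
            have := Polynomial.coeff_pow_of_natDegree_le (m := 2 * n + 5) (n := 1)
              (p := Polynomial.C a * Polynomial.X + Polynomial.C b)
              (Polynomial.natDegree_linear_le)
            rw [mul_one] at this
            rw [this]
            simp
          simp only [P, Polynomial.coeff_add, Polynomial.coeff_sub, h5, Polynomial.coeff_X_pow,
            if_true, Polynomial.coeff_C, if_neg (show ¬ (2 * n + 5 = 0) by omega), add_zero]
        refine mem_cl_of_poly P ?_ ?_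
        · intro hP0
          rw [hP0, Polynomial.coeff_zero] at hP
          have ha : a ^ (2 * n + 5) = 1 := (sub_eq_zero.mp hP.symm).symm
          have ha' : (y 2 ^ (n + 2)) ^ (2 * n + 5) = 1 := by
            have := congrArg (fun t : cl k S => (t : E)) ha
            simpa [a] using this
          have htr : Transcendental k (y 2) := by
            have := hD.ind.transcendental (Sum.inr 0)
            simpa using this
          apply htr
          rw [← pow_mul] at ha'
          refine ⟨Polynomial.X ^ ((n + 2) * (2 * n + 5)) - 1, ?_, ?_⟩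
          · exact Polynomial.X_pow_sub_C_ne_zero (R := k) (n := (n + 2) * (2 * n + 5))
              (by positivity) 1
          · simp [ha']
        · simp only [P, map_add, map_sub, map_pow, map_mul, Polynomial.aeval_X,
            Polynomial.aeval_C]
          have e1 : algebraMap (cl k S) E a = y 2 ^ (n + 2) := rfl
          have e2 : algebraMap (cl k S) E b = r := rfl
          have e3 : algebraMap (cl k S) E d = c := rfl
          rw [e1, e2, e3, map_one]
          rw [hs1, Odd.neg_pow (by exact ⟨n + 2, by ring⟩)] at hfer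
          linear_combination hfer
      have hs : ∀ i, x i / x 0 ∈ cl k S := by
        intro i
        refine Fin.cases ?_ (fun i => Fin.cases ?_ (fun i => Fin.cases ?_ (fun i => ?_) i) i) i
        · rw [div_self (hx 0)]; exact one_mem _
        · rw [Fin.succ_zero_eq_one, hs1]
          exact neg_mem (add_mem (mul_mem (pow_mem (hy 2) _) hs2) hrm)
        · exact hs2
        · exact hsi i
      have hFX : FX k x y ≤ cl k S := by
        unfold FX
        rw [IntermediateField.adjoin_le_iff]
        rintro g (⟨i, rfl⟩ | ⟨i, rfl⟩)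
        · exact hs i
        · exact hy i
      have hxi : x i ∈ cl k S := mem_cl_of_isAlgebraic _ hFX hi
      have hx0 : x 0 ∈ cl k S := by
        have : x 0 = x i / (x i / x 0) := by
          have := hx i
          have := hx 0
          field_simp
        rw [this]
        exact div_mem hxi (hs i)
      rintro g (⟨i, rfl⟩ | ⟨i, rfl⟩)
      · rw [hxs i]
        exact mul_mem (hs i) hx0
      · exact hy i
    have h2 := hT0.trans h1
    rw [Nat.cast_le] at h2
    omega

end Pool.Agent.W212.CBT
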